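import Mathlib
import Pool.Agent.H12.Bratteli

/-! A diagram without finite Perron eigenvalue carrying a finite tail-invariant measure. -/

open MeasureTheory Set Filter Pool.Agent.H12.Bratteli
open scoped ENNReal

namespace Pool.Agent.Results.MP_17dcfb_an.Q1

def F (v w : ℤ) : ℕ :=
  if v = w + 1 then 1 else if 0 ≤ w ∧ v = -1 - w then 1 else if v = w ∧ w < 0 then w.natAbs else 0

lemma F_ne {v w : ℤ} (h : F v w ≠ 0) : v = w + 1 ∨ (0 ≤ w ∧ v = -1 - w) ∨ (v = w ∧ w < 0) := by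
  unfold F at h
  split_ifs at h with h1 h2 h3
  · exact Or.inl h1
  · exact Or.inr (Or.inl h2)
  · exact Or.inr (Or.inr h3)
  · exact absurd rfl h

lemma F_succ (w : ℤ) : F (w + 1) w = 1 := if_pos rfl

lemma F_jump {w : ℤ} (h : 0 ≤ w) : F (-1 - w) w = 1 := by
  rw [F, if_neg (by omega), if_pos ⟨h, rfl⟩]

lemma F_loop {w : ℤ} (h : w < 0) : F w w = w.natAbs := by
  rw [F, if_neg (by omega), if_neg (by omega), if_pos ⟨rfl, h⟩]

lemma fin_in (v : ℤ) : {w | F v w ≠ 0}.Finite := by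
  apply (toFinite ({v - 1, -1 - v, v} : Set ℤ)).subset
  intro w hw
  have := F_ne hw
  simp only [mem_insert_iff, mem_singleton_iff]
  omega

lemma diagram : IsDiagram F := by
  refine fun v => ⟨fin_in v, ?_, ⟨v + 1, by simp [F_succ]⟩, ⟨v - 1, ?_⟩⟩
  · apply (toFinite ({v + 1, -1 - v, v} : Set ℤ)).subset
    intro w hw
    have := F_ne hw
    simp only [mem_insert_iff, mem_singleton_iff]
    omega
  · have := F_succ (v - 1)
    rw [sub_add_cancel] at this
    simp [this]

lemma pw_step (n : ℕ) (i k j : ℤ) : F i k * pw F n k j ≤ pw F (n + 1) i j := by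
  rw [pw]
  apply single_le_finsum (f := fun k => F i k * pw F n k j) k _ fun _ => Nat.zero_le _
  exact (fin_in i).subset fun w hw => left_ne_zero_of_mul hw

lemma pw_ray (n m : ℕ) (k j : ℤ) : pw F n k j ≤ pw F (n + m) (k + m) j := by
  induction m with
  | zero => simp
  | succ m ih =>
    have := pw_step (n + m) (k + m + 1) (k + m) j
    rw [F_succ, one_mul] at this
    push_cast
    rw [← add_assoc k]
    exact ih.trans this

lemma pw_loop (n m : ℕ) {k : ℤ} (hk : k < 0) (j : ℤ) :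
    k.natAbs ^ m * pw F n k j ≤ pw F (n + m) k j := by
  induction m with
  | zero => simp
  | succ m ih =>
    have := pw_step (n + m) k k j
    rw [F_loop hk] at this
    refine le_trans ?_ this
    rw [pow_succ', mul_assoc]
    exact Nat.mul_le_mul_left _ ih

lemma pw_low (i j : ℤ) (K : ℕ) : ∃ c, ∀ m, (K + 1) ^ m ≤ pw F (c + m) i j := by
  obtain ⟨L, hL1, hL2, hL3⟩ : ∃ L : ℕ, K ≤ L ∧ j ≤ L ∧ -1 - (L : ℤ) ≤ i :=
    ⟨K + j.natAbs + i.natAbs, by omega, by omega, by omega⟩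
  obtain ⟨a, ha⟩ := Int.eq_ofNat_of_zero_le (sub_nonneg.mpr hL2)
  obtain ⟨b, hb⟩ := Int.eq_ofNat_of_zero_le (sub_nonneg.mpr hL3)
  refine ⟨0 + a + 1 + b, fun m => ?_⟩
  have h0 : 1 ≤ pw F 0 j j := by simp [pw]
  have h1 := pw_ray 0 a j j
  rw [show j + a = L by omega] at h1
  have h2 := pw_step (0 + a) (-1 - L) L j
  rw [F_jump (by omega), one_mul] at h2
  have h3 := pw_loop (0 + a + 1) m (k := -1 - L) (by omega) j
  have h4 := pw_ray (0 + a + 1 + m) b (-1 - L) j
  rw [show -1 - (L : ℤ) + b = i by omega] at h4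
  rw [show 0 + a + 1 + b + m = 0 + a + 1 + m + b by ring]
  refine le_trans ?_ (h3.trans h4)
  calc (K + 1) ^ m ≤ (-1 - (L : ℤ)).natAbs ^ m * 1 := by
        rw [mul_one]; exact Nat.pow_le_pow_left (by omega) m
    _ ≤ _ := Nat.mul_le_mul_left _ (h0.trans (h1.trans h2))

lemma perron (i j : ℤ) :
    Tendsto (fun n : ℕ => (pw F n i j : ℝ) ^ (1 / n : ℝ)) atTop atTop := by
  refine tendsto_atTop.mpr fun B => ?_
  obtain ⟨K, hK⟩ := exists_nat_ge B
  obtain ⟨c, hc⟩ := pw_low i j (K ^ 2)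
  filter_upwards [eventually_ge_atTop (2 * c + 1)] with n hn
  obtain ⟨m, rfl⟩ := Nat.exists_eq_add_of_le (show c ≤ n by omega)
  refine hK.trans ?_
  have h1 : K ^ (c + m) ≤ pw F (c + m) i j := by
    refine le_trans ?_ (hc m)
    rcases Nat.eq_zero_or_pos K with h | h
    · rw [h, zero_pow (by omega)]; exact Nat.zero_le _
    · calc K ^ (c + m) ≤ K ^ (2 * m) := Nat.pow_le_pow_right h (by omega)
        _ = (K ^ 2) ^ m := pow_mul _ _ _
        _ ≤ _ := Nat.pow_le_pow_left (by omega) m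
  have h2 : ((K : ℝ) ^ (c + m)) ≤ pw F (c + m) i j := by exact_mod_cast h1
  calc (K : ℝ) = ((K : ℝ) ^ (c + m)) ^ (1 / ((c + m : ℕ) : ℝ)) := by
        rw [one_div, Real.pow_rpow_inv_natCast (Nat.cast_nonneg K) (by omega)]
    _ ≤ _ := Real.rpow_le_rpow (by positivity) h2 (by positivity)

lemma fin_tail (n : ℕ) : ∀ y : Path F, {x : Path F | ∀ m, n ≤ m → x.1 m = y.1 m}.Finite := by
  induction n with
  | zero =>
    intro y
    exact (finite_singleton y).subset fun x hx => Subtype.ext (funext fun m => hx m (Nat.zero_le _))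
  | succ n ih =>
    intro y
    have hE : {e : Edge F | e.r = (y.1 (n + 1)).s}.Finite := by
      have h1 : (⋃ w ∈ {w | F (y.1 (n + 1)).s w ≠ 0},
          range fun k : Fin (F (y.1 (n + 1)).s w) => (⟨w, _, k⟩ : Edge F)).Finite :=
        (fin_in _).biUnion fun w _ => finite_range _
      apply h1.subset
      rintro ⟨s, r, k⟩ (rfl : r = _)
      exact mem_biUnion (show F _ s ≠ 0 from k.pos.ne') ⟨k, rfl⟩
    refine (hE.biUnion (t := fun e => {x : Path F | x.1 n = e ∧ ∀ m, n + 1 ≤ m → x.1 m = y.1 m})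
      fun e _ => ?_).subset fun x hx => mem_biUnion (show (x.1 n).r = _ by
        rw [x.2 n, hx (n + 1) le_rfl]) ⟨rfl, hx⟩
    rcases eq_empty_or_nonempty {x : Path F | x.1 n = e ∧ ∀ m, n + 1 ≤ m → x.1 m = y.1 m} with
      h | ⟨z, hz⟩
    · rw [h]; exact finite_empty
    · refine (ih z).subset fun x hx m hm => ?_
      rcases eq_or_lt_of_le hm with h | h
      · rw [← h, hx.1, hz.1]
      · rw [hx.2 m h, hz.2 m h]

def ray (k : ℤ) : Path F :=
  ⟨fun m => ⟨m + k, m + k + 1, ⟨0, by simp [F_succ]⟩⟩, fun m => by push_cast; ring⟩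

def C (k : ℤ) : Set (Path F) := {x | ∃ N, ∀ m, N ≤ m → x.1 m = (ray k).1 m}

lemma C_fin (k : ℤ) : (C k).Finite := by
  refine (fin_tail k.natAbs (ray k)).subset ?_
  rintro x ⟨N, hN⟩
  have h : ∀ d m, k.natAbs ≤ m → N ≤ m + d → x.1 m = (ray k).1 m := by
    intro d
    induction d with
    | zero => exact fun m _ h => hN m h
    | succ d ih =>
      intro m h1 h2
      have h3 := x.2 m
      rw [ih (m + 1) (by omega) (by omega)] at h3
      rcases hy : x.1 m with ⟨s, r, e⟩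
      rw [hy] at h3
      have h4 : r = m + k + 1 := by
        have : r = ((m + 1 : ℕ) : ℤ) + k := h3
        omega
      have h5 := F_ne e.pos.ne'
      obtain rfl : s = m + k := by omega
      subst h4
      simp only [ray, Edge.mk.injEq, heq_eq_eq, true_and]
      have := e.2
      have h6 := F_succ (m + k)
      exact Fin.ext (by simp only; omega)
  exact fun m hm => h N m hm (by omega)

lemma swap_le (k : ℤ) (x x' : Path F) (n : ℕ) (h : (x.1 n).s = (x'.1 n).s) :
    (cyl x n ∩ C k).encard ≤ (cyl x' n ∩ C k).encard := by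
  classical
  apply encard_le_encard_of_injOn
    (f := fun y => if hy : (y.1 n).s = (x'.1 n).s then glue x' y n hy else y)
  · rintro y ⟨h1, N, hN⟩
    simp only [dif_pos (h1.2.trans h)]
    refine ⟨glue_mem _ _ _ _, max N n, fun m hm => ?_⟩
    rw [glue_ge _ _ _ _ (le_of_max_le_right hm), hN m (le_of_max_le_left hm)]
  · rintro y ⟨h1, -⟩ z ⟨h2, -⟩ e
    simp only [dif_pos (h1.2.trans h), dif_pos (h2.2.trans h)] at e
    refine Subtype.ext (funext fun m => ?_)
    rcases lt_or_ge m n with hm | hm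
    · rw [h1.1 m hm, h2.1 m hm]
    · rw [← glue_ge x' y n (h1.2.trans h) hm, e, glue_ge _ _ _ _ hm]

theorem result : ∃ (V : Type) (_ : Countable V) (_ : Infinite V) (F : V → V → ℕ), IsDiagram F ∧
    (∀ i j, ∃ n, 1 ≤ n ∧ 0 < pw F n i j) ∧
    (∀ i (d : ℕ), (∀ n, 1 ≤ n → 0 < pw F n i i → d ∣ n) → d = 1) ∧
    (∀ i j, Tendsto (fun n : ℕ => (pw F n i j : ℝ) ^ (1 / n : ℝ)) atTop atTop) ∧
    ∃ μ : Measure (Path F), IsFiniteMeasure μ ∧ TailInv μ ∧ ∀ x n, 0 < μ (cyl x n) := by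
  have hpos : ∀ i j, ∃ c, ∀ m, 0 < pw F (c + m) i j := fun i j => by
    obtain ⟨c, hc⟩ := pw_low i j 0
    exact ⟨c, fun m => lt_of_lt_of_le (by simp) (hc m)⟩
  obtain ⟨w, hw, hs⟩ := ENNReal.exists_pos_sum_of_countable (ε := 1) one_ne_zero ℤ
  let c : ℤ → ℝ≥0∞ := fun k => w k / ((C k).encard + 1)
  let μ : Measure (Path F) := Measure.sum fun k => c k • Measure.count.restrict (C k)
  have hμ : ∀ S, MeasurableSet S → μ S = ∑' k, c k * ((S ∩ C k).encard : ℝ≥0∞) := fun S hS => by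
    rw [Measure.sum_apply _ hS]
    refine tsum_congr fun k => ?_
    rw [Measure.smul_apply, Measure.restrict_apply hS, smul_eq_mul,
      Measure.count_apply (hS.inter (C_fin k).measurableSet)]
  have htop : ∀ k, ((C k).encard : ℝ≥0∞) ≠ ⊤ := fun k => by
    simpa using C_fin k
  have hp : ∀ x n, 0 < μ (cyl x n) := fun x n => by
    rw [hμ _ (meas_cyl x n)]
    refine lt_of_lt_of_le ?_ (ENNReal.le_tsum ((x.1 n).s - n))
    apply ENNReal.mul_pos
    · exact (ENNReal.div_pos (by simpa using (hw _).ne') (by simp [htop])).ne'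
    · have h : ((ray ((x.1 n).s - n)).1 n).s = (x.1 n).s := by simp [ray]
      have : (cyl x n ∩ C ((x.1 n).s - n)).Nonempty :=
        ⟨glue x _ n h, glue_mem _ _ _ _, n, fun m hm => glue_ge _ _ _ _ hm⟩
      simpa using this.ne_empty
  refine ⟨ℤ, inferInstance, inferInstance, F, diagram, fun i j => ?_, fun i d hd => ?_, perron,
    μ, ⟨?_⟩, ⟨fun h => ?_, fun x x' n h => ?_⟩, hp⟩
  · obtain ⟨c, hc⟩ := hpos i j
    exact ⟨c + 1, by omega, hc 1⟩
  · obtain ⟨c, hc⟩ := hpos i i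
    have h1 := hd (c + 1) (by omega) (hc 1)
    have h2 := hd (c + 2) (by omega) (hc 2)
    exact Nat.dvd_one.mp ((Nat.dvd_add_right h1).mp h2)
  · rw [hμ _ MeasurableSet.univ]
    refine lt_of_le_of_lt (ENNReal.tsum_le_tsum fun k => ?_) (hs.trans ENNReal.one_lt_top)
    rw [univ_inter]
    calc c k * ((C k).encard : ℝ≥0∞) ≤ c k * ((C k).encard + 1) := by gcongr; exact le_self_add
      _ = w k := ENNReal.div_mul_cancel (by simp) (by simp [htop])
  · have := hp (ray 0) 0
    rw [h] at this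
    simp at this
  · rw [hμ _ (meas_cyl x n), hμ _ (meas_cyl x' n)]
    refine tsum_congr fun k => ?_
    rw [le_antisymm (swap_le k x x' n h) (swap_le k x' x n h.symm)]

end Pool.Agent.Results.MP_17dcfb_an.Q1
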