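import Mathlib
import Pool.Agent.H12.Bratteli

/-! The tridiagonal diagram carries no finite tail-invariant measure. -/

open MeasureTheory Set Pool.Agent.H12.Bratteli
open scoped ENNReal

namespace Pool.Agent.Results.MP_17dcfb_an.Q2

/-- the tridiagonal matrix -/
def T (i j : ℕ+) : ℕ := if i = j then i + 1 else if i = j + 1 ∨ j = i + 1 then 1 else 0

def loop (v : ℕ+) : Path T := ⟨fun _ => ⟨v, v, ⟨0, by simp [T]⟩⟩, fun _ => rfl⟩

def ext (v : ℕ+) (m : ℕ) (e : Σ w, Fin (T w v)) : Path T :=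
  ⟨fun i => if i < m then (loop v).1 i else if i = m then ⟨v, e.1, e.2⟩ else (loop e.1).1 i,
    fun i => by
      beta_reduce
      rcases lt_trichotomy i m with h | h | h
      · rw [if_pos h]
        rcases eq_or_lt_of_le (Nat.succ_le_of_lt h) with h1 | h1
        · rw [if_neg (by omega), if_pos h1]; rfl
        · rw [if_pos h1]; rfl
      · rw [if_neg (by omega), if_pos h, if_neg (by omega), if_neg (by omega)]; rfl
      · rw [if_neg (by omega), if_neg (by omega), if_neg (by omega), if_neg (by omega)]; rfl⟩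

lemma ext_at (v : ℕ+) (m : ℕ) (e : Σ w, Fin (T w v)) : (ext v m e).1 m = ⟨v, e.1, e.2⟩ := by
  simp [ext]

lemma ext_succ (v : ℕ+) (m : ℕ) (e : Σ w, Fin (T w v)) : ((ext v m e).1 (m + 1)).s = e.1 := by
  rw [← (ext v m e).2 m, ext_at]

lemma split (v : ℕ+) (m : ℕ) : cyl (loop v) m = ⋃ e, cyl (ext v m e) (m + 1) := by
  ext y
  simp only [mem_iUnion]
  constructor
  · rintro ⟨h1, h2⟩
    rcases hy : y.1 m with ⟨s, r, k⟩
    rw [hy] at h2
    obtain rfl : s = v := h2
    refine ⟨⟨r, k⟩, fun i hi => ?_, ?_⟩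
    · rcases eq_or_lt_of_le (Nat.le_of_lt_succ hi) with h | h
      · rw [h, ext_at, hy]
      · rw [h1 i h]; exact (if_pos h).symm
    · rw [ext_succ, ← y.2 m, hy]
  · rintro ⟨e, h1, -⟩
    refine ⟨fun i hi => ?_, ?_⟩
    · rw [h1 i (by omega)]; exact if_pos hi
    · rw [h1 m (by omega), ext_at]; rfl

lemma recur {μ : Measure (Path T)} (hμ : TailInv μ) (v : ℕ+) (m : ℕ) :
    μ (cyl (loop v) m) = ∑' w, T w v * μ (cyl (loop w) (m + 1)) := by
  rw [split, measure_iUnion _ fun e => meas_cyl _ _]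
  · rw [ENNReal.tsum_sigma']
    refine tsum_congr fun w => ?_
    rw [tsum_congr fun k => hμ.2 _ (loop w) _ (ext_succ v m ⟨w, k⟩)]
    simp
  · rintro ⟨w, k⟩ ⟨w', k'⟩ hne
    rw [Function.onFun, disjoint_left]
    rintro y ⟨h1, -⟩ ⟨h2, -⟩
    have := (h1 m (by omega)).symm.trans (h2 m (by omega))
    rw [ext_at, ext_at] at this
    simp only [Edge.mk.injEq, true_and] at this
    exact hne (Sigma.ext this.1 this.2)

lemma recur0 {μ : Measure (Path T)} (hμ : TailInv μ) (m : ℕ) :
    μ (cyl (loop 1) m) = 2 * μ (cyl (loop 1) (m + 1)) + μ (cyl (loop 2) (m + 1)) := by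
  rw [recur hμ, tsum_eq_sum (s := {1, 2})]
  · rw [Finset.sum_pair (by decide), show T 1 1 = 2 by decide, show T 2 1 = 1 by decide]
    simp
  · intro w hw
    simp only [Finset.mem_insert, Finset.mem_singleton, not_or] at hw
    have h : ¬ (w = 1 + 1 ∨ 1 = w + 1) := by
      rintro (h | h)
      · exact hw.2 h
      · exact absurd (congrArg PNat.val h) (by have := w.pos; simp)
    simp [T, hw.1, h]

lemma recur1 {μ : Measure (Path T)} (hμ : TailInv μ) (v : ℕ+) (m : ℕ) :
    μ (cyl (loop (v + 1)) m) = μ (cyl (loop v) (m + 1)) +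
      ((v : ℕ) + 2) * μ (cyl (loop (v + 1)) (m + 1)) + μ (cyl (loop (v + 1 + 1)) (m + 1)) := by
  have n1 : v ≠ v + 1 := fun h => absurd (congrArg PNat.val h) (by simp)
  have n2 : v ≠ v + 1 + 1 := fun h => absurd (congrArg PNat.val h) (by simp; omega)
  have n3 : v + 1 ≠ v + 1 + 1 := fun h => absurd (congrArg PNat.val h) (by simp)
  rw [recur hμ, tsum_eq_sum (s := {v, v + 1, v + 1 + 1})]
  · rw [Finset.sum_insert (by simp [n1, n2]), Finset.sum_pair n3]
    have e1 : T v (v + 1) = 1 := by simp [T, n1]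
    have e2 : T (v + 1) (v + 1) = v + 2 := by simp [T]
    have e3 : T (v + 1 + 1) (v + 1) = 1 := by simp [T, n3.symm]
    rw [e1, e2, e3]
    push_cast
    ring
  · intro w hw
    simp only [Finset.mem_insert, Finset.mem_singleton, not_or] at hw
    have h : ¬ (w = v + 1 + 1 ∨ v + 1 = w + 1) := by
      rintro (h | h)
      · exact hw.2.2 h
      · exact hw.1 (add_right_cancel h).symm
    simp only [T, if_neg hw.2.1, if_neg h, Nat.cast_zero, zero_mul]

theorem result : ¬ ∃ μ : Measure (Path T), IsFiniteMeasure μ ∧ TailInv μ := by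
  rintro ⟨μ, hfin, hμ⟩
  set p : ℕ → ℕ+ → ℝ≥0∞ := fun m v => μ (cyl (loop v) m) with hp
  have r0 : ∀ m, p m 1 = 2 * p (m + 1) 1 + p (m + 1) 2 := recur0 hμ
  have r1 : ∀ m v, p m (v + 1) = p (m + 1) v + ((v : ℕ) + 2) * p (m + 1) (v + 1) +
      p (m + 1) (v + 1 + 1) := fun m v => recur1 hμ v m
  have key : ∀ (n : ℕ) m v, p (m + 1) v + n * p (m + 2) v ≤ p m (v + 1) := by
    intro n
    induction n with
    | zero => intro m v; rw [r1]; simp [add_assoc]
    | succ n ih =>
      intro m v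
      rw [r1]
      induction v using PNat.caseStrongInductionOn with
      | hz =>
        have a1 := ih (m + 1) 1
        have a2 := ih (m + 1) 2
        have e1 := r0 (m + 1)
        have e2 := r0 (m + 2)
        calc p (m + 1) 1 + ((n + 1 : ℕ) : ℝ≥0∞) * p (m + 2) 1
            = 3 * p (m + 2) 1 + p (m + 2) 2 + n * p (m + 2) 1 := by
              rw [e1]; push_cast; ring
          _ = 3 * p (m + 2) 1 + p (m + 2) 2 + n * (2 * p (m + 3) 1 + p (m + 3) 2) := by
              rw [← e2]
          _ ≤ 3 * p (m + 2) 1 + p (m + 2) 2 + n * (2 * p (m + 3) 1 + p (m + 3) 2) +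
              n * p (m + 3) 1 := le_self_add
          _ = 3 * (p (m + 2) 1 + n * p (m + 3) 1) + (p (m + 2) 2 + n * p (m + 3) 2) := by ring
          _ ≤ 3 * p (m + 1) (1 + 1) + p (m + 1) (2 + 1) := by gcongr
          _ ≤ p (m + 1) 1 + (3 * p (m + 1) (1 + 1) + p (m + 1) (2 + 1)) := le_add_self
          _ = _ := by
              rw [add_assoc]
              norm_num
              rfl
      | hi u _ =>
        have a0 := ih (m + 1) u
        have a1 := ih (m + 1) (u + 1)
        have a2 := ih (m + 1) (u + 1 + 1)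
        have e1 := r1 (m + 1) u
        have e2 := r1 (m + 2) u
        calc p (m + 1) (u + 1) + ((n + 1 : ℕ) : ℝ≥0∞) * p (m + 2) (u + 1)
            = p (m + 2) u + ((u : ℕ) + 3) * p (m + 2) (u + 1) + p (m + 2) (u + 1 + 1) +
              n * p (m + 2) (u + 1) := by
              rw [e1]; push_cast; ring
          _ = p (m + 2) u + ((u : ℕ) + 3) * p (m + 2) (u + 1) + p (m + 2) (u + 1 + 1) +
              n * (p (m + 3) u + ((u : ℕ) + 2) * p (m + 3) (u + 1) + p (m + 3) (u + 1 + 1)) := by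
              rw [← e2]
          _ ≤ p (m + 2) u + ((u : ℕ) + 3) * p (m + 2) (u + 1) + p (m + 2) (u + 1 + 1) +
              n * (p (m + 3) u + ((u : ℕ) + 2) * p (m + 3) (u + 1) + p (m + 3) (u + 1 + 1)) +
              n * p (m + 3) (u + 1) := le_self_add
          _ = (p (m + 2) u + n * p (m + 3) u) +
              ((u : ℕ) + 3) * (p (m + 2) (u + 1) + n * p (m + 3) (u + 1)) +
              (p (m + 2) (u + 1 + 1) + n * p (m + 3) (u + 1 + 1)) := by ring
          _ ≤ p (m + 1) (u + 1) + ((u : ℕ) + 3) * p (m + 1) (u + 1 + 1) +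
              p (m + 1) (u + 1 + 1 + 1) := by gcongr
          _ = _ := by push_cast; ring
  have z2 : ∀ v, p 2 v = 0 := by
    intro v
    by_contra h
    obtain ⟨n, hn⟩ := ENNReal.exists_nat_mul_gt h (measure_ne_top μ (cyl (loop (v + 1)) 0))
    exact absurd (le_add_self.trans (key n 0 v)) (not_le.mpr hn)
  have down : ∀ m, (∀ v, p (m + 1) v = 0) → ∀ v, p m v = 0 := by
    intro m h v
    change μ _ = 0
    rw [recur hμ]
    exact ENNReal.tsum_eq_zero.mpr fun w => by rw [show μ _ = 0 from h w, mul_zero]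
  have z0 := down 0 (down 1 z2)
  apply hμ.1
  rw [← Measure.measure_univ_eq_zero]
  have : (univ : Set (Path T)) = ⋃ v, cyl (loop v) 0 := by
    ext y
    simp only [mem_univ, mem_iUnion, true_iff]
    exact ⟨(y.1 0).s, by simp, rfl⟩
  rw [this]
  exact measure_iUnion_null z0

end Pool.Agent.Results.MP_17dcfb_an.Q2
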